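import Pool.Agent.MP_34a893_an.All

/-! The local comparison of the entropy solution with affine solutions, with a speed bound that
does not depend on the solution. -/

open MeasureTheory Set Filter Topology

namespace MP34a893.FL

open Ent in
theorem entU (cone : ConeS) (ren : RenormS) (T M : ℝ) (V : ℝ → ℝ) (hT : 0 < T)
    (hV : ContDiff ℝ 1 V) : ∃ C1, 0 ≤ C1 ∧ ∀ (C : ℝ) (q0 : ℝ → ℝ) (q Q : ℝ → ℝ → ℝ),
      IsEntropySol T V q0 q → (∀ t ∈ Icc 0 T, ∀ᵐ x, q t x ∈ Icc 0 M) →
      Pot T C q (fun t x => V (q t x) * q t x) Q → SProp T M C1 0 0 (fun κ => κ * V κ) Q := by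
  obtain ⟨K, hK⟩ := (hV.mul contDiff_id).contDiffOn.exists_lipschitzOnWith one_ne_zero
    (convex_Icc 0 M) isCompact_Icc
  refine ⟨K + 1, by positivity, fun C q0 q Q hE hq hP s δ x κ hs hδ hsδ hκ => ?_⟩
  rcases hδ.eq_or_lt with rfl | hδ
  · exact ⟨x, by simp, by simp⟩
  let G : ℝ → ℝ → ℝ := fun t y => Q (max 0 (min t T)) y - κ * y + V κ * κ * t
  have hG : Continuous fun z : ℝ × ℝ => G z.1 z.2 := by
    exact ((cont hT.le hP).sub (by fun_prop)).add (by fun_prop)
  have hG1 : ∀ t, Continuous (G t) := fun t => hG.comp (Continuous.prodMk_right t)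
  have hGe : ∀ t ∈ Icc 0 T, ∀ y, G t y = Q t y - κ * y + V κ * κ * t := fun t ht y => by
    simp only [G, cl_eq ht]
  have hK0 : (0 : ℝ) ≤ K := K.2
  obtain ⟨y, hy, hm⟩ := (isCompact_Icc (a := x - (K + 1) * δ) (b := x + (K + 1) * δ)).exists_isMaxOn
    ⟨x, by constructor <;> nlinarith⟩ (hG1 s).continuousOn
  refine ⟨y, by rw [add_zero, abs_le]; constructor <;> linarith [hy.1, hy.2], ?_⟩
  suffices H : G (s + δ) x ≤ G s y by
    rw [hGe _ ⟨by linarith, hsδ⟩, hGe _ ⟨hs, by linarith⟩] at H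
    linarith
  set m := G s y
  let θ : ℝ → ℝ := fun r => Real.smoothTransition (r - m)
  have hθ : ContDiff ℝ 1 θ := Real.smoothTransition.contDiff.comp (contDiff_id.sub contDiff_const)
  have hθ0 : ∀ r, 0 ≤ θ r := fun r => Real.smoothTransition.nonneg _
  have hθ1 : ∀ r, θ r ≤ 1 := fun r => Real.smoothTransition.le_one _
  have hθG : Continuous fun z : ℝ × ℝ => θ (G z.1 z.2) := hθ.continuous.comp hG
  have hqm := hP.q_meas
  have hqκ : ∀ t ∈ Icc 0 T, ∀ᵐ y, |q t y - κ| ≤ M := fun t ht => (hq t ht).mono fun y h =>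
    abs_le.2 ⟨by linarith [h.1, hκ.2], by linarith [h.2, hκ.1]⟩
  have hsub : SubId T (fun t y => θ (G t y) * |q t y - κ|)
      (fun t y => θ (G t y) * (Real.sign (q t y - κ) * (V (q t y) * q t y - V κ * κ))) := by
    intro φ h1 h2 h3 h4
    refine (ren T C κ (V κ * κ) q _ Q θ hT hP hθ hθ0 (hE.2.2.2 κ) φ h1 h2 h3 h4).trans_eq
      (setIntegral_congr_fun (measurableSet_Ioo.prod MeasurableSet.univ) fun z hz => ?_)
    simp only [hGe _ (Ioo_subset_Icc_self hz.1)]
  have hc := cone T K M (fun t y => θ (G t y) * |q t y - κ|)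
    (fun t y => θ (G t y) * (Real.sign (q t y - κ) * (V (q t y) * q t y - V κ * κ))) hK0
    (hθG.measurable.mul (hqm.sub measurable_const).abs)
    (hθG.measurable.mul ((sign_meas.comp (hqm.sub measurable_const)).mul
      (hP.F_meas.sub measurable_const)))
    (fun t ht => by
      filter_upwards [hq t ht, hqκ t ht] with y h1 h2
      refine ⟨mul_nonneg (hθ0 _) (abs_nonneg _),
        (mul_le_of_le_one_left (abs_nonneg _) (hθ1 _)).trans h2, ?_⟩
      have h3 := hK.dist_le_mul _ h1 _ hκ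
      rw [Real.dist_eq, Real.dist_eq] at h3
      rw [abs_mul, abs_mul, abs_of_nonneg (hθ0 _), mul_left_comm (K : ℝ)]
      exact mul_le_mul_of_nonneg_left
        ((mul_le_of_le_one_left (abs_nonneg _) (sign_le _)).trans h3) (hθ0 _))
    (fun a b t0 ht0 => by
      have h1 : Continuous fun t => ∫ y in Icc a b, M * |θ (G t y) - θ (G t0 y)| := by
        refine continuous_parametric_integral_of_continuous ?_ isCompact_Icc
        have := hθ.continuous.comp (hG1 t0)
        exact continuous_const.mul (hθG.sub (this.comp continuous_snd)).abs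
      have h2 := (hE.2.1 a b t0 ht0).add
        ((h1.tendsto' t0 0 (by simp)).mono_left (nhdsWithin_le_nhds (s := Icc 0 T)))
      rw [add_zero] at h2
      refine squeeze_zero' (.of_forall fun t => integral_nonneg fun y => abs_nonneg _) ?_ h2
      filter_upwards [self_mem_nhdsWithin] with t ht
      have i1 : IntegrableOn (fun y => |q t y - q t0 y|) (Icc a b) := by
        refine Measure.integrableOn_of_bounded (M := M) measure_Icc_lt_top.ne
          ((meas_slice hqm t).sub (meas_slice hqm t0)).abs.aestronglyMeasurable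
          (ae_restrict_of_ae ?_)
        filter_upwards [hq t ht, hq t0 ht0] with y e1 e2
        rw [Real.norm_eq_abs, abs_abs, abs_le]
        constructor <;> linarith [e1.1, e1.2, e2.1, e2.2]
      have i2 : IntegrableOn (fun y => M * |θ (G t y) - θ (G t0 y)|) (Icc a b) :=
        (continuous_const.mul ((hθ.continuous.comp (hG1 t)).sub
          (hθ.continuous.comp (hG1 t0))).abs).integrableOn_Icc
      rw [← integral_add i1 i2]
      refine integral_mono_of_nonneg (.of_forall fun y => abs_nonneg _) (i1.add i2)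
        (ae_restrict_of_ae ?_)
      filter_upwards [hqκ t0 ht0] with y e
      have e1 : θ (G t y) * |q t y - κ| - θ (G t0 y) * |q t0 y - κ| =
          θ (G t y) * (|q t y - κ| - |q t0 y - κ|) + |q t0 y - κ| * (θ (G t y) - θ (G t0 y)) := by
        ring
      have e2 := abs_abs_sub_abs_le (q t y - κ) (q t0 y - κ)
      rw [sub_sub_sub_cancel_right] at e2
      rw [e1]
      refine (abs_add_le _ _).trans (add_le_add ?_ ?_)
      · rw [abs_mul, abs_of_nonneg (hθ0 _)]
        exact (mul_le_of_le_one_left (abs_nonneg _) (hθ1 _)).trans e2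
      · rw [abs_mul, abs_abs]
        exact mul_le_mul_of_nonneg_right e (abs_nonneg _))
    hsub
  have h1 : ∀ t ∈ Icc s (s + δ), ∀ᵐ r, r ∈ Icc (x - δ) (x + δ) → m < G t r → q t r = κ := by
    intro t ht
    have := hc s (t - s) (x - δ) (x + δ) hs (by linarith [ht.1]) (by linarith [ht.2])
      (.of_forall fun r hr => by
        have e : K * (t - s) ≤ K * δ := mul_le_mul_of_nonneg_left (by linarith [ht.2]) hK0
        have : G s r ≤ m := hm ⟨by linarith [hr.1], by linarith [hr.2]⟩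
        exact mul_eq_zero_of_left (Real.smoothTransition.zero_of_nonpos (sub_nonpos.2 this)) _)
    rw [add_sub_cancel] at this
    filter_upwards [this] with r h hr hlt
    exact sub_eq_zero.1 (abs_eq_zero.1 ((mul_eq_zero.1 (h hr)).resolve_left
      (Real.smoothTransition.pos_of_pos (sub_pos.2 hlt)).ne'))
  have hI : ∀ t ∈ Icc s (s + δ), t ∈ Icc 0 T := fun t ht =>
    ⟨hs.trans ht.1, ht.2.trans hsδ⟩
  have h2 : ∀ t ∈ Icc s (s + δ), ∀ r ∈ Icc (x - δ) (x + δ), (G t r ≤ m ↔ G t x ≤ m) := by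
    intro t ht
    have key : ∀ a c, x - δ ≤ a → a ≤ c → c ≤ x + δ → (G t a ≤ m ↔ G t c ≤ m) :=
      fun a c ha hac hc => dich (hG1 t) hac fun x1 x2 e1 e2 e3 e4 => by
        have e5 : ∫ r in x1..x2, q t r = ∫ _ in x1..x2, κ := by
          refine intervalIntegral.integral_congr_ae ?_
          filter_upwards [h1 t ht, Measure.ae_ne volume x2] with r e6 e7 e8
          rw [uIoc_of_le e2] at e8
          exact e6 ⟨by linarith [e8.1], by linarith [e8.2]⟩ (e4 r ⟨e8.1, lt_of_le_of_ne e8.2 e7⟩)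
        rw [← hP.Qx t (hI t ht), intervalIntegral.integral_const, smul_eq_mul] at e5
        rw [hGe t (hI t ht), hGe t (hI t ht)]
        linarith
    intro r hr
    rcases le_total r x with h | h
    · exact key r x hr.1 h (by linarith)
    · exact (key x r (by linarith) h hr.2).symm
  by_contra hlt
  have hKc : IsCompact (Icc s (s + δ) ∩ (fun t => G t x) ⁻¹' Iic m) :=
    isCompact_Icc.inter_right (isClosed_Iic.preimage (hG.comp (Continuous.prodMk_left x)))
  obtain ⟨t1, ⟨e1, e2⟩, e3⟩ := hKc.exists_isGreatest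
    ⟨s, ⟨le_rfl, by linarith⟩, hm ⟨by nlinarith, by nlinarith⟩⟩
  have e4 : (s + δ) ∈ Icc s (s + δ) := ⟨by linarith, le_rfl⟩
  have e5 : ∫ t in t1..(s + δ), ∫ r in (x - δ)..(x + δ), V (q t r) * q t r =
      ∫ _ in t1..(s + δ), ∫ _ in (x - δ)..(x + δ), V κ * κ := by
    refine intervalIntegral.integral_congr_ae (.of_forall fun t ht => ?_)
    rw [uIoc_of_le e1.2] at ht
    have ht' : t ∈ Icc s (s + δ) := ⟨e1.1.trans ht.1.le, ht.2⟩
    refine intervalIntegral.integral_congr_ae ?_
    filter_upwards [h1 t ht'] with r e6 e7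
    rw [uIoc_of_le (by linarith)] at e7
    rw [e6 (Ioc_subset_Icc_self e7) (not_le.1 fun e8 =>
      (e3 ⟨ht', (h2 t ht' r (Ioc_subset_Icc_self e7)).1 e8⟩).not_gt ht.1)]
  have e6 := hP.Qt t1 (hI _ e1) (s + δ) (hI _ e4) (x - δ) (x + δ)
  have i1 : IntervalIntegrable (fun r => G (s + δ) r - G t1 r) volume (x - δ) (x + δ) :=
    ((hG1 _).sub (hG1 _)).intervalIntegrable _ _
  have e7 : 0 < ∫ r in (x - δ)..(x + δ), (G (s + δ) r - G t1 r) :=
    intervalIntegral.intervalIntegral_pos_of_pos_on i1 (fun r hr => sub_pos.2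
        (((h2 t1 e1 r (Ioo_subset_Icc_self hr)).2 e2).trans_lt (not_le.1 fun e8 =>
          hlt ((h2 _ e4 r (Ioo_subset_Icc_self hr)).1 e8)))) (by linarith)
  have e8 : (fun r => Q (s + δ) r - Q t1 r) =
      fun r => (G (s + δ) r - G t1 r) - V κ * κ * (s + δ - t1) := funext fun r => by
    rw [hGe _ (hI _ e1), hGe _ (hI _ e4)]
    ring
  rw [e5, e8, intervalIntegral.integral_sub i1 intervalIntegrable_const] at e6
  simp only [intervalIntegral.integral_const, smul_eq_mul] at e6
  linarith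

theorem lowU (T M : ℝ) (V : ℝ → ℝ) (hT : 0 < T) (hV : ContDiff ℝ 1 V) :
    ∃ C1, 0 ≤ C1 ∧ ∀ (C : ℝ) (q0 : ℝ → ℝ) (q Q : ℝ → ℝ → ℝ),
      IsEntropySol T V q0 q → (∀ t ∈ Icc 0 T, ∀ᵐ x, q t x ∈ Icc 0 M) →
      Pot T C q (fun t x => V (q t x) * q t x) Q → SLow T M C1 0 0 (fun κ => κ * V κ) Q := by
  obtain ⟨C1, h0, ent⟩ := entU coneS renormS T M (fun r => -V r) hT hV.neg
  refine ⟨C1, h0, fun C q0 q Q hE hq hP s δ x κ h1 h2 h3 h4 => ?_⟩
  have h := ent C _ _ (fun t x => -Q t (-x)) (B.EntLow.ent hE)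
    (fun t ht => B.EntLow.ae_neg (hq t ht)) (by simpa only [neg_mul] using B.EntLow.pot hP)
  obtain ⟨y, k1, k2⟩ := h s δ (-x) κ h1 h2 h3 h4
  refine ⟨-y, by rwa [← abs_neg, neg_sub', neg_neg], ?_⟩
  simp only [neg_neg] at k2
  linarith

end MP34a893.FL
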