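import Pool.Agent.MP_34a893_an.FL.Ent

/-! The cumulative flux of the nonlocal solutions is asymptotically at least the entropy flux. -/

open MeasureTheory Set Filter Topology

namespace MP34a893.FL

/-- the velocity of the Lagrangian description is the velocity of the weak solution -/
theorem vel {P : Par} {M η : ℝ} {V γ : ℝ → ℝ} {q : ℝ → ℝ → ℝ} (L : Lag P M) (hM : 0 < M)
    (hη : 0 < η) (hk : ∀ s, 0 ≤ s → P.k s = γ s ^ P.p) (hγ : ∀ s, 0 ≤ s → 0 ≤ γ s)
    (hΦ : ∀ r, 0 ≤ r → P.Φ (r ^ P.p) = V r) {t : ℝ} (hq : ∀ᵐ x, q t x = L.q (t / η) (x / η))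
    (x : ℝ) : V (Wnl P.p η γ q t x) = L.v (t / η) (x / η) := by
  have LF := basic_all.2.1 P M L hM
  have hZ := (LF.Z_mem (t / η) (x / η)).1
  have h1 : Wnl P.p η γ q t x = L.Z (t / η) (x / η) ^ (1 / P.p) := by
    rw [Wnl, Sca.comp_aff hη, Lag.Z]
    congr 1
    refine setIntegral_congr_ae measurableSet_Ioi ?_
    filter_upwards [Sca.ae_aff hη.ne' x hq] with s hs h0
    rw [add_sub_cancel_left, mul_div_cancel_left₀ _ hη.ne', hs,
      Real.mul_rpow (hγ s (le_of_lt h0)) (LF.q_mem _ _).1, hk s (le_of_lt h0), LF.q_pow, add_div,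
      mul_div_cancel_left₀ _ hη.ne']
  rw [h1, ← hΦ _ (Real.rpow_nonneg hZ _), one_div, Real.rpow_inv_rpow hZ P.hp0.ne', Lag.v]

theorem pot_cont {T C : ℝ} {q F Q : ℝ → ℝ → ℝ} (h : Pot T C q F Q) {t : ℝ} (ht : t ∈ Icc 0 T) :
    Continuous (Q t) := by
  have := (Ent.cont (ht.1.trans ht.2) h).comp (Continuous.prodMk_right t)
  simpa only [Function.comp_def, Ent.cl_eq ht] using this

open Final B.FinB in
theorem main (p T M : ℝ) (V γ : ℝ → ℝ) (hp0 : 0 < p) (hp1 : p < 1) (hT : 0 < T) (hM : 0 < M)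
    (hV : ContDiff ℝ 1 V) (hV' : ∀ x, deriv V x ≤ 0) (hγ : IsKernel p γ) (e : ℝ) (he : 0 < e) :
    ∃ η0, 0 < η0 ∧ ∀ η, 0 < η → η < η0 → ∀ (q0 : ℝ → ℝ) (q qs : ℝ → ℝ → ℝ), Measurable q0 →
      (∀ x, q0 x ∈ Icc 0 M) → IsWeakSol p η T V γ q0 q → IsEntropySol T V q0 qs →
      ∀ t ∈ Icc 0 T, ∀ a c, a ≤ c →
        ∫ s in (0 : ℝ)..t, ∫ x in a..c, V (qs s x) * qs s x ≤
          (∫ s in (0 : ℝ)..t, ∫ x in a..c, V (Wnl p η γ q s x) * q s x) + e * (c - a) := by
  obtain ⟨P, hPp, hPk, hPΦ, -⟩ := parS p V γ hp0 hp1 hV hV' hγ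
  subst hPp
  have hf : ∀ κ, 0 ≤ κ → P.f κ = κ * V κ := fun κ hκ => by rw [Par.f, hPΦ κ hκ]
  obtain ⟨CV, hCV⟩ := isCompact_Icc.exists_bound_of_continuousOn
    (hV.continuous.continuousOn (s := Icc 0 M))
  have hCV0 : 0 ≤ CV := (norm_nonneg _).trans (hCV 0 ⟨le_rfl, hM.le⟩)
  obtain ⟨Cb, hCb, hlow⟩ := lowU T M V hT hV
  obtain ⟨e1, he1, hC⟩ := B.cmpS T M e hT hM he
  obtain ⟨C1, hC1, hsub⟩ := subS basic_all P M hM
  obtain ⟨D1, hD1, hsub⟩ := hsub e1 he1
  obtain ⟨e2, he2, hC⟩ := hC (Cb + C1) (by positivity)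
  refine ⟨e2 / D1, by positivity, fun η hη hη0 q0 q qs hq0m hq0 hq hqs t ht a c hac => ?_⟩
  rw [lt_div_iff₀ hD1] at hη0
  have hrange := rangeS sliceS coneS T M V q0 qs hT hV hq0m hq0 hqs
  have hqsm : Measurable (Function.uncurry qs) := hqs.1.1
  have hFm : Measurable (Function.uncurry fun t x => V (qs t x) * qs t x) :=
    (hV.continuous.measurable.comp hqsm).mul hqsm
  obtain ⟨Qs, hPs, hQs0, hqs0⟩ := potS sliceS T (M + CV * M) q0 qs
    (fun t x => V (qs t x) * qs t x) hT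
    hqsm hFm (fun t ht => (hrange t ht).mono fun x hx => by
      constructor
      · rw [abs_of_nonneg hx.1]
        nlinarith [hx.2]
      · rw [abs_mul, abs_of_nonneg hx.1]
        have := mul_le_mul (hCV _ hx) hx.2 hx.1 hCV0
        rw [Real.norm_eq_abs] at this
        linarith) hq0m (fun x => by
      rw [abs_of_nonneg (hq0 x).1]
      nlinarith [(hq0 x).2]) hqs.2.1 hqs.2.2.1
  have hSl : SLow T M Cb 0 0 P.f Qs := by
    intro s δ x κ hs hδ hsT hκ
    rw [hf κ hκ.1]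
    exact hlow _ q0 qs Qs hqs hrange hPs s δ x κ hs hδ hsT hκ
  obtain ⟨L, Q, hLT, hL0, hLq, hQ, hP⟩ := scale_all P η T M V γ q0 q hη hT hM hPk
    (fun s hs => hγ.2.2.2.1 s hs) hPΦ hV.continuous hγ.1 hq0m hq0 hq
  have m0 : (0 : ℝ) ∈ Icc 0 T := ⟨le_rfl, hT.le⟩
  have h0 : ∀ y, Q 0 y = Qs 0 y := by
    intro y
    rw [hQ 0 m0, Q_zero L q0 hη hL0]
    have := hPs.Qx 0 m0 0 y
    rw [hQs0, sub_zero] at this
    rw [this]
    exact intervalIntegral.integral_congr_ae (hqs0.mono fun x hx _ => hx.symm)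
  have h1 : ∀ y z, Qs 0 y - Qs 0 z ≤ M * max (y - z) 0 := by
    intro y z
    have hi := ii_of_bdd (hPs.q_meas.of_uncurry_left (x := 0)) ((hPs.bdd 0 m0).mono fun _ h => h.1)
    have hr : ∀ᵐ x, qs 0 x ∈ Icc 0 M := hrange 0 m0
    rcases le_total z y with h | h
    · rw [hPs.Qx 0 m0, max_eq_left (by linarith)]
      have := intervalIntegral.integral_mono_ae h (hi z y) (intervalIntegrable_const (c := M))
        (hr.mono fun _ hx => hx.2)
      simpa [mul_comm] using this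
    · have := intervalIntegral.integral_nonneg_of_ae h (hr.mono fun _ hx => hx.1)
      rw [← hPs.Qx 0 m0] at this
      rw [max_eq_right (by linarith)]
      linarith
  have b1 := hC P.f Q Qs (sprop_mono (sprop_scale L Q hη hLT hQ (hsub L)) (by linarith) le_rfl
    hη0.le) (slow_mono hSl (by linarith) he1.le he2.le)
    (fun y z => by rw [h0]; exact h1 y z) t ht
  have e1 := hP.Qt 0 m0 t ht a c
  have e2 := hPs.Qt 0 m0 t ht a c
  have e3 : ∫ s in (0 : ℝ)..t, ∫ x in a..c, V (Wnl P.p η γ q s x) * q s x =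
      ∫ s in (0 : ℝ)..t, ∫ x in a..c, L.v (s / η) (x / η) * L.q (s / η) (x / η) := by
    refine intervalIntegral.integral_congr fun s hs => ?_
    have hs' := ordConnected_Icc.uIcc_subset m0 ht hs
    refine intervalIntegral.integral_congr_ae ?_
    filter_upwards [hLq s hs'] with x hx _
    rw [vel L hM hη hPk (fun s hs => hγ.2.2.2.1 s hs) hPΦ (hLq s hs') x, hx]
  have e4 : ∫ x in a..c, (Q t x - Q 0 x) ≤ ∫ x in a..c, (Qs t x - Qs 0 x + e) :=
    intervalIntegral.integral_mono_on hac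
      (((pot_cont hP ht).sub (pot_cont hP m0)).intervalIntegrable _ _)
      ((((pot_cont hPs ht).sub (pot_cont hPs m0)).add continuous_const).intervalIntegrable _ _)
      fun x _ => by rw [h0]; linarith [b1 x]
  have i1 : IntervalIntegrable (fun x => Qs t x - Qs 0 x) volume a c :=
    ((pot_cont hPs ht).sub (pot_cont hPs m0)).intervalIntegrable _ _
  rw [intervalIntegral.integral_add i1 intervalIntegrable_const,
    intervalIntegral.integral_const, smul_eq_mul, e1, e2] at e4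
  rw [e3]
  linarith

end MP34a893.FL
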